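import Pool.Agent.K1H80.KA.StmC

/-!
# Connectivity of the sets built from a triangle
-/

set_option autoImplicit false

namespace Pool.Agent.K1H63.KC

open Pool.Agent.KA

/-- A set built from a triangle is connected. -/
theorem con : CONStm := by
  intro V _ G A hA
  induction hA with
  | tri a b c hab hbc hac =>
    intro T g hg k hk l hl
    have e1 : g a = g b := hg a (by simp) b (by simp) hab
    have e2 : g b = g c := hg b (by simp) c (by simp) hbc
    have key : ∀ k ∈ ({a, b, c} : Finset V), g k = g a := by
      intro k hk
      simp only [Finset.mem_insert, Finset.mem_singleton] at hk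
      rcases hk with rfl | rfl | rfl
      · rfl
      · exact e1.symm
      · exact (e1.trans e2).symm
    rw [key k hk, key l hl]
  | ext A v a b hA hv ha hb hab hva hvb ih =>
    intro T g hg k hk l hl
    have ih' := ih T g (fun k hk l hl h =>
      hg k (Finset.mem_insert_of_mem hk) l (Finset.mem_insert_of_mem hl) h)
    have e : g v = g a :=
      hg v (Finset.mem_insert_self _ _) a (Finset.mem_insert_of_mem ha) hva
    have key : ∀ k ∈ insert v A, g k = g a := by
      intro k hk
      rcases Finset.mem_insert.1 hk with h | h
      · rw [h]; exact e
      · exact ih' k h a ha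
    rw [key k hk, key l hl]

end Pool.Agent.K1H63.KC
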